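import Mathlib
import Pool.Agent.U367.TD.Stm

/-!
# Package E of project TD: an injective homomorphism from `ℤ_p` to the units
-/

set_option autoImplicit false

namespace Pool.Agent.U580.TD

open Filter Topology Pool.Agent.U367.TD

section

variable (p : ℕ) [hp : Fact p.Prime]

theorem tendsto_pow_p : Tendsto (fun n : ℕ => ((p : ℤ_[p])) ^ n) atTop (𝓝 0) := by
  apply tendsto_pow_atTop_nhds_zero_iff_norm_lt_one.mpr
  exact PadicInt.norm_lt_one_iff_dvd _ |>.mpr (dvd_refl _)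

/-- The character `z ↦ (1 + p) ^ z`. -/
noncomputable def kap : AddChar ℤ_[p] ℤ_[p] :=
  PadicInt.addChar_of_value_at_one (p : ℤ_[p]) (tendsto_pow_p p)

theorem kap_one : kap p 1 = 1 + (p : ℤ_[p]) :=
  PadicInt.addChar_of_value_at_one_def _

theorem kap_cont : Continuous (kap p) :=
  PadicInt.continuous_addChar_of_value_at_one _

theorem kap_ker (z : ℤ_[p]) (hz : kap p z = 1) (w : ℤ_[p]) : kap p (z * w) = 1 := by
  have h1 : (fun w : ℤ_[p] => kap p (z * w)) = fun _ => 1 := by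
    refine PadicInt.denseRange_natCast.equalizer ?_ continuous_const ?_
    · exact (kap_cont p).comp (continuous_const.mul continuous_id)
    · funext n
      change kap p (z * (n : ℤ_[p])) = 1
      have h2 : z * (n : ℤ_[p]) = n • z := by
        rw [nsmul_eq_mul, mul_comm]
      rw [h2, AddChar.map_nsmul_eq_pow, hz, one_pow]
  exact congr_fun h1 w

theorem kap_nat (n : ℕ) : kap p n = (1 + (p : ℤ_[p])) ^ n := by
  have h := AddChar.map_nsmul_eq_pow (kap p) n 1
  rw [kap_one] at h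
  rwa [nsmul_eq_mul, mul_one] at h

theorem kap_inj (z : ℤ_[p]) (hz : kap p z = 1) : z = 0 := by
  by_contra h0
  have h1 : z = (PadicInt.unitCoeff h0 : ℤ_[p]) * (p : ℤ_[p]) ^ z.valuation :=
    PadicInt.unitCoeff_spec h0
  have h2 := kap_ker p z hz ((PadicInt.unitCoeff h0)⁻¹ : ℤ_[p]ˣ)
  have h3 : z * (((PadicInt.unitCoeff h0)⁻¹ : ℤ_[p]ˣ) : ℤ_[p]) = ((p ^ z.valuation : ℕ) : ℤ_[p]) := by
    push_cast
    nth_rw 1 [h1]
    rw [mul_assoc, mul_comm, mul_assoc, Units.inv_mul, mul_one]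
  rw [h3, kap_nat] at h2
  have h4 : ((1 + p) ^ (p ^ z.valuation) : ℕ) = 1 := by
    have : (((1 + p) ^ (p ^ z.valuation) : ℕ) : ℤ_[p]) = ((1 : ℕ) : ℤ_[p]) := by
      push_cast
      exact h2
    exact_mod_cast this
  have h5 : 1 < (1 + p) ^ (p ^ z.valuation) := by
    apply Nat.one_lt_pow
    · exact (pow_pos hp.out.pos _).ne'
    · have := hp.out.pos
      omega
  omega

/-- The homomorphism to the units. -/
noncomputable def eHom : ℤ_[p] →+ Additive ℚ_[p]ˣ :=
  MonoidHom.toAdditiveRight ((Units.map (algebraMap ℤ_[p] ℚ_[p] : ℤ_[p] →* ℚ_[p])).comp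
    (kap p).toMonoidHom.toHomUnits)

theorem eHom_apply (z : ℤ_[p]) :
    (((eHom p z).toMul : ℚ_[p]ˣ) : ℚ_[p]) = ((kap p z : ℤ_[p]) : ℚ_[p]) := rfl

end

/-- Package E. -/
theorem t_E : S_E := by
  intro p hp
  refine ⟨eHom p, ?_, ?_⟩
  · rw [injective_iff_map_eq_zero]
    intro z hz
    apply kap_inj
    have h1 := eHom_apply p z
    rw [hz] at h1
    have h2 : ((kap p z : ℤ_[p]) : ℚ_[p]) = ((1 : ℤ_[p]) : ℚ_[p]) := by
      rw [← h1]
      simp
    exact Subtype.ext h2
  · intro z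
    rw [eHom_apply]
    have h1 : kap p z * kap p (-z) = 1 := by
      rw [← AddChar.map_add_eq_mul, add_neg_cancel, AddChar.map_zero_eq_one]
    have h2 : IsUnit (kap p z) := IsUnit.of_mul_eq_one _ h1
    exact PadicInt.isUnit_iff.mp h2

end Pool.Agent.U580.TD
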